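import Pool.Agent.Helper84.SQ.All

namespace Pool.Agent.Results.MP_ed7369_lc.Classification

open Pool.Agent.Helper45.SQP Pool.Agent.Helper81.CC Pool.Agent.Helper84.SQ

/-- The complete answer. (1) With at most one concave variable there is a fully polynomial-time
approximation scheme which is correct on all instances, in particular an algorithm as in the
question for every `ε`. (2) For every number `p` of concave variables there is such a scheme which is
correct on all instances that are not unbounded below. (3) For `p ≥ 2` unboundedness below is
NP-hard to decide, even for homogeneous instances, and an algorithm as in the question would imply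
`P = NP`. -/
theorem result :
    (∀ p : ℕ, p ≤ 1 → (HasScheme p fun _ => True) ∧ ∀ ε : ℝ, 0 < ε → HasAlgorithm p ε) ∧
    (∀ p : ℕ, HasScheme p fun I => ¬ I.UnboundedBelow) ∧
    ∀ p : ℕ, 2 ≤ p → (ConeUnbounded p).NPHard ∧
      ∀ ε : ℝ, HasAlgorithm p ε → ∀ A : Problem, A.InNP → A.InP := by
  refine ⟨fun p hp => ⟨scheme_one p hp, fun ε hε => algorithm_one p hp ε hε⟩, scheme_all,
    fun p hp => ⟨(coneUnbounded_hardS p hp).npHard, fun ε h A hA => ?_⟩⟩
  exact Pool.Agent.Helper31.TMSim.inP_of_reduces
    (Pool.Agent.Helper83.CL.SAT_hardS A hA).reduces (sat_inP hp h)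

end Pool.Agent.Results.MP_ed7369_lc.Classification
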